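import Pool.Agent.MWLE.StmtsB

/-!
# Row TWC of block MWLE: multiplicities in the words
-/

set_option autoImplicit false

namespace Pool.Agent.MWLE.H81T

open Pool.Agent.Helper14_MV Pool.Agent.Helper2_MV
open Pool.Agent.MWK (pre Gw)
open Pool.Agent.MWGN (nn Gz E0 P0 A0 Tau gh)
open Pool.Agent.MWLE

theorem cp_succ (s k : ℕ) : cp s (k + 1) = cp s k ++ [pin (s + k), con (s + k), con (s + k)] := by
  simp [cp, List.range_succ]

theorem mem_cp {s k c : ℕ} : c ∈ cp s k ↔ ∃ i < k, c = pin (s + i) ∨ c = con (s + i) := by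
  simp [cp, List.mem_flatMap]

theorem cnt_cp {s i : ℕ} : ∀ {k : ℕ}, i < k → 2 ≤ (cp s k).count (con (s + i))
  | 0, h => by omega
  | k + 1, h => by
    rw [cp_succ, List.count_append]
    rcases Nat.lt_or_ge i k with h1 | h1
    · have := cnt_cp (s := s) h1
      omega
    · have e : i = k := by omega
      subst e
      have : 2 ≤ ([pin (s + i), con (s + i), con (s + i)] : List ℕ).count (con (s + i)) := by
        simp [List.count_cons]
      omega

theorem mem_wb {m c : ℕ} {d g : Bool} : c ∈ wb m d g ↔ c = 0 ∨ c = 1 ∨ c = con 0 ∨ c = pin 0 ∨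
    c ∈ cp 1 m ∨ c = con (m + 1) ∨ c = pin (m + 1) ∨ c ∈ cp (m + 2) m ∨ c = pin (2 * m + 2) := by
  unfold wb N0 Nx
  cases d <;> cases g <;> simp only [List.mem_append, List.mem_cons, List.not_mem_nil,
    if_true, if_false, Bool.false_eq_true, or_false] <;> tauto

theorem cls {m c : ℕ} {d g : Bool} (h : c ∈ wb m d g) : c = 0 ∨ c = 1 ∨
    (∃ k ≤ 2 * m + 1, c = con k) ∨ ∃ k ≤ 2 * m + 2, c = pin k := by
  rcases mem_wb.1 h with h | h | h | h | h | h | h | h | h
  · exact Or.inl h
  · exact Or.inr (Or.inl h)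
  · exact Or.inr (Or.inr (Or.inl ⟨0, by omega, h⟩))
  · exact Or.inr (Or.inr (Or.inr ⟨0, by omega, h⟩))
  · obtain ⟨i, hi, h1 | h1⟩ := mem_cp.1 h
    · exact Or.inr (Or.inr (Or.inr ⟨1 + i, by omega, h1⟩))
    · exact Or.inr (Or.inr (Or.inl ⟨1 + i, by omega, h1⟩))
  · exact Or.inr (Or.inr (Or.inl ⟨m + 1, by omega, h⟩))
  · exact Or.inr (Or.inr (Or.inr ⟨m + 1, by omega, h⟩))
  · obtain ⟨i, hi, h1 | h1⟩ := mem_cp.1 h
    · exact Or.inr (Or.inr (Or.inr ⟨m + 2 + i, by omega, h1⟩))
    · exact Or.inr (Or.inr (Or.inl ⟨m + 2 + i, by omega, h1⟩))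
  · exact Or.inr (Or.inr (Or.inr ⟨2 * m + 2, le_rfl, h⟩))

theorem cnt2 {m c : ℕ} {d g : Bool} (h : c ∈ wb m d g) (hp : ∀ k, c ≠ pin k) :
    2 ≤ (wb m d g).count c := by
  have e : (wb m d g).count c = (N0 m).count c + (((if d then [0, 0] else [0]) : List ℕ).count c +
      ((Nx m g).count c + ([0] : List ℕ).count c)) := by
    unfold wb
    simp only [List.count_append]
  have e1 : (N0 m).count c = ([1, con 0, con 0, pin 0] : List ℕ).count c + (cp 1 m).count c := by
    have : N0 m = [1, con 0, con 0, pin 0] ++ cp 1 m := rfl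
    rw [this, List.count_append]
  have e2 : (Nx m g).count c = ([con (m + 1), con (m + 1)] : List ℕ).count c +
      (((if g then [1] else []) : List ℕ).count c + (([pin (m + 1), 1] : List ℕ).count c +
        ((cp (m + 2) m).count c + ([pin (2 * m + 2)] : List ℕ).count c))) := by
    have : Nx m g = [con (m + 1), con (m + 1)] ++ ((if g then [1] else []) ++
      ([pin (m + 1), 1] ++ (cp (m + 2) m ++ [pin (2 * m + 2)]))) := rfl
    rw [this]
    simp only [List.count_append]
  rw [e, e1, e2]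
  rcases mem_wb.1 h with h | h | h | h | h | h | h | h | h
  · subst h
    have h1 : 1 ≤ ((if d then [0, 0] else [0]) : List ℕ).count 0 := by cases d <;> simp
    have h2 : ([0] : List ℕ).count 0 = 1 := by simp
    omega
  · subst h
    have h1 : 1 ≤ ([1, con 0, con 0, pin 0] : List ℕ).count 1 := by
      rw [List.count_cons_self]; omega
    have h2 : 1 ≤ ([pin (m + 1), 1] : List ℕ).count 1 :=
      List.count_pos_iff.2 (by simp)
    omega
  · subst h
    have h1 : 2 ≤ ([1, con 0, con 0, pin 0] : List ℕ).count (con 0) := by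
      simp [con, pin]
    omega
  · exact absurd h (hp 0)
  · obtain ⟨i, hi, h1 | h1⟩ := mem_cp.1 h
    · exact absurd h1 (hp _)
    · subst h1
      have := cnt_cp (s := 1) hi
      omega
  · subst h
    have h1 : 2 ≤ ([con (m + 1), con (m + 1)] : List ℕ).count (con (m + 1)) := by
      simp
    omega
  · exact absurd h (hp _)
  · obtain ⟨i, hi, h1 | h1⟩ := mem_cp.1 h
    · exact absurd h1 (hp _)
    · subst h1
      have := cnt_cp (s := m + 2) hi
      omega
  · exact absurd h (hp _)

theorem pin_wb {m k : ℕ} (d g : Bool) (hk : k ≤ 2 * m + 2) : pin k ∈ wb m d g := by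
  rw [mem_wb]
  by_cases h0 : k = 0
  · subst h0; tauto
  by_cases h1 : k ≤ m
  · have : pin k ∈ cp 1 m := mem_cp.2 ⟨k - 1, by omega, Or.inl (by rw [show 1 + (k - 1) = k by omega])⟩
    tauto
  by_cases h2 : k = m + 1
  · subst h2; tauto
  by_cases h3 : k ≤ 2 * m + 1
  · have : pin k ∈ cp (m + 2) m :=
      mem_cp.2 ⟨k - (m + 2), by omega, Or.inl (by rw [show m + 2 + (k - (m + 2)) = k by omega])⟩
    tauto
  · have h4 : k = 2 * m + 2 := by omega
    subst h4; tauto

theorem twc : TwcStmt := by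
  intro σ τ m hS d g
  refine ⟨?_, fun c hc hp => cnt2 hc hp, fun k hk => pin_wb d g hk, fun c hc => cls hc⟩
  intro c hc
  have e : (wd σ m d g).count c = (wb m d g).count c + (tl σ).count c := by
    unfold wd
    rw [List.count_append]
  rw [e]
  by_cases hp : ∀ k, c ≠ pin k
  · have := cnt2 hc hp
    omega
  · push Not at hp
    obtain ⟨k, hk⟩ := hp
    have h1 : 1 ≤ (wb m d g).count c := List.count_pos_iff.2 hc
    have h2 : 1 ≤ (tl σ).count c := by
      apply List.count_pos_iff.2
      have hk2 : k ≤ 2 * m + 2 := by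
        rcases cls hc with h | h | ⟨j, hj, h⟩ | ⟨j, hj, h⟩
        · rw [hk] at h; unfold pin at h; omega
        · rw [hk] at h; unfold pin at h; omega
        · rw [hk] at h; unfold pin con at h; omega
        · rw [hk] at h; unfold pin at h; omega
      unfold tl
      rw [List.mem_flatMap]
      exact ⟨k, (hS.me k).2 hk2, by rw [hk]; simp⟩
    omega

end Pool.Agent.MWLE.H81T
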